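import Mathlib
import Pool.Agent.H225R3.MargDefs
import Pool.Agent.H225R3.MargDefs2
import Pool.Agent.H225R3.Marg10

/-!
# Uniform discreteness of arithmetic groups of large level, or over fields with many small primes
-/

set_option autoImplicit false

open NumberField Pool.Agent.H225R3.Marg

namespace Pool.Agent.Results.MP_162bbe_gt.CongruenceLevels

/-- Let `G` be a topological group and `ρ` a continuous finite dimensional complex representation
of `G` (for instance the complexified adjoint representation of a semisimple Lie group). Let
`0 < η ≤ 1/2`, `b > 0`, `E > 0` and `s` be given.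

(1) The family of all torsion-free subgroups of `G` that are realized by integral matrices, of any
size, over a number field `k`, of any degree `d`, with at most `s` noncompact embeddings, and
whose `e`-th powers are trivial modulo an ideal of norm at least `exp (b * d ^ (1/2 + η))`, for
some `e ≤ E * d ^ (η/4)`, is uniformly discrete.

(2) The family of all torsion-free subgroups of `G` that are realized by integral matrices of size
`n` over a number field `k`, of any degree `d`, with at most `s` noncompact embeddings, where `k`
has at least `b * d ^ (1/2 + η)` prime ideals of the same norm `q`, `q ^ (n * n) ≤ E * d ^ (η/4)`,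
is uniformly discrete. There is no congruence condition here.

(3), (4) For every `C > 1` similar families, with the bound `C ^ (d - |S|)` for the norm of the
ideal, or for the product of the norms of primes of norm at most `Q`, where `S` is the set of
noncompact embeddings, are uniformly discrete, now without the hypothesis that the groups are
torsion-free and without a bound for `|S|`. -/
theorem result {G : Type*} [Group G] [TopologicalSpace G] {M : ℕ}
    (ρ : G →* Matrix (Fin M) (Fin M) ℂ) (hρ : Continuous ρ) :
    (∀ η b E : ℝ, 0 < η → η ≤ 1 / 2 → 0 < b → 0 < E → ∀ s : ℕ,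
      UniformlyDiscrete (GrowingLevelFamily η b E s ρ)) ∧
    (∀ η b E : ℝ, 0 < η → η ≤ 1 / 2 → 0 < b → 0 < E → ∀ s n : ℕ,
      UniformlyDiscrete (GrowingPrimesFamily η b E s n ρ)) ∧
    (∀ C : ℝ, 1 < C → ∀ e : ℕ, 0 < e → UniformlyDiscrete (CongruenceFamily C e ρ)) ∧
    (∀ C : ℝ, 1 < C → ∀ Q n : ℕ, UniformlyDiscrete (SmallPrimesFamily C Q n ρ)) :=
  ⟨fun η b E hη hη1 hb hE s => uniform_glevel η b E hη hη1 hb hE s ρ hρ,
    fun η b E hη hη1 hb hE s n => uniform_gprimes η b E hη hη1 hb hE s n ρ hρ,
    fun C hC e he => uniform_congruence C hC e he ρ hρ,
    fun C hC Q n => uniform_primes C hC Q n ρ hρ⟩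

end Pool.Agent.Results.MP_162bbe_gt.CongruenceLevels
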